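import Mathlib
import Pool.Agent.Lib.MP_f2e062_co.Upper
import Pool.Agent.Lib.MP_f2e062_co.Lower
import Pool.Agent.Lib.MP_f2e062_co.FiveMain

namespace Pool.Agent.Results.MP_f2e062_co.ExactlyFive

/-- The infinite sequence `x 0, x 1, x 2, …` over the alphabet `Fin c` contains a repetition of
total length at least three: consecutive terms `x l, …, x (l + k * b - 1)` that form `k ≥ 2`
identical words of length `b ≥ 1`, with `k * b ≥ 3`. -/
def HasRepetition {c : ℕ} (x : ℕ → Fin c) : Prop :=
  ∃ l b k : ℕ, 1 ≤ b ∧ 2 ≤ k ∧ 3 ≤ k * b ∧ ∀ j < k, ∀ i < b, x (l + j * b + i) = x (l + i)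

/-- Player 1, who chooses the terms `x 0, x 2, x 4, …`, has a strategy in the game over `Fin c`:
a rule `σ` that reads the list of all earlier terms and gives his next symbol, such that no
infinite play in which he follows the rule (the terms `x 1, x 3, x 5, …` of Player 2 are
arbitrary) contains a repetition of total length at least three. -/
def P1HasStrategy (c : ℕ) : Prop :=
  ∃ σ : List (Fin c) → Fin c, ∀ x : ℕ → Fin c,
    (∀ k : ℕ, x (2 * k) = σ ((List.range (2 * k)).map x)) → ¬ HasRepetition x

open Pool.Agent.Lib.MP_f2e062_co in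
/-- Player 2 wins over at most four letters. -/
lemma lower {c : ℕ} (hc : c ≤ 4) : ¬ P1HasStrategy c := by
  rintro ⟨σ, hσ⟩
  interval_cases c
  · exact (σ []).elim0
  · obtain ⟨x, hx, h⟩ := lower_of_W _ W1 σ
    exact hσ x hx h
  · obtain ⟨x, hx, h⟩ := lower_of_W _ W2 σ
    exact hσ x hx h
  · obtain ⟨x, hx, h⟩ := lower_of_W _ W3 σ
    exact hσ x hx h
  · obtain ⟨x, hx, h⟩ := lower_of_W _ W4 σ
    exact hσ x hx h

open Pool.Agent.Lib.MP_f2e062_co in
/-- Player 1 wins over at least six letters. -/
lemma upper {c : ℕ} (hc : 6 ≤ c) : P1HasStrategy c := by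
  classical
  have : NeZero c := ⟨by omega⟩
  refine ⟨fun h => if H : ∃ a, ∀ x : ℕ → Fin c, (List.range h.length).map x = h →
      Good x (h.length / 2) a then H.choose else 0, fun x hx hrep => ?_⟩
  have hG : ∀ k, Good x k (x (2 * k)) := by
    intro k
    induction k using Nat.strong_induction_on with
    | _ k ih =>
      obtain ⟨a, ha⟩ := exists_good (A := Fin c) (by simpa using hc) (inv_of_good ih)
      have H : ∃ a, ∀ y : ℕ → Fin c,
          (List.range ((List.range (2 * k)).map x).length).map y = (List.range (2 * k)).map x →
          Good y (((List.range (2 * k)).map x).length / 2) a := by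
        refine ⟨a, fun y hy => ?_⟩
        have e : ((List.range (2 * k)).map x).length = 2 * k := by simp
        rw [e] at hy ⊢
        have e2 : 2 * k / 2 = k := by omega
        rw [e2]
        refine ha.congr (fun i hi => ?_)
        have := (List.map_inj_left.1 hy) i (List.mem_range.2 hi)
        exact this.symm
      have h1 := H.choose_spec x (by simp)
      have h2 := hx k
      simp only [dif_pos H] at h2
      rw [h2]
      have e : ((List.range (2 * k)).map x).length / 2 = k := by
        rw [List.length_map, List.length_range]; omega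
      have h3 := h1
      generalize H.choose = a' at h3 ⊢
      rw [e] at h3
      exact h3
  obtain ⟨l, b, k, hb, hk, hkb, h⟩ := hrep
  exact no_rep hG hb hk hkb h

/-- the first `n` terms, the newest first -/
def word (x : ℕ → Fin 5) (n : ℕ) : List ℕ :=
  (((List.range n).map x).map Fin.val).reverse

lemma word_succ (x : ℕ → Fin 5) (n : ℕ) : word x (n + 1) = (x n : ℕ) :: word x n := by
  unfold word
  rw [List.range_succ, List.map_append, List.map_append, List.reverse_append]
  rfl

lemma word_drop (x : ℕ → Fin 5) (n j : ℕ) : (word x (n + j)).drop j = word x n := by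
  induction j with
  | zero => rfl
  | succ j ih =>
    have : n + (j + 1) = n + j + 1 := rfl
    rw [this, word_succ, List.drop_succ_cons, ih]

lemma word_get (x : ℕ → Fin 5) (n t : ℕ) (ht : t < n) :
    (word x n)[t]? = some (x (n - 1 - t) : ℕ) := by
  induction n generalizing t with
  | zero => omega
  | succ n ih =>
    rw [word_succ]
    cases t with
    | zero => rfl
    | succ t =>
      rw [List.getElem?_cons_succ, ih t (by omega)]
      have : n - 1 - t = n + 1 - 1 - (t + 1) := by omega
      rw [this]

open Pool.Agent.Lib.MP_f2e062_co.Five in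
/-- Player 1 wins over five letters. -/
lemma five : P1HasStrategy 5 := by
  classical
  refine ⟨fun h => if H : ∃ a : Fin 5, ∀ b : Fin 5,
      Inv ((b : ℕ) :: (a : ℕ) :: (h.map Fin.val).reverse) then H.choose else 0,
    fun x hx hrep => ?_⟩
  have hI : ∀ k, Inv (word x (2 * k)) := by
    intro k
    induction k with
    | zero => exact inv_nil
    | succ k ih =>
      have H : ∃ a : Fin 5, ∀ b : Fin 5,
          Inv ((b : ℕ) :: (a : ℕ) :: (((List.range (2 * k)).map x).map Fin.val).reverse) := by
        obtain ⟨a, ha, h⟩ := step ih
        exact ⟨⟨a, ha⟩, fun b => h b b.2⟩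
      have h1 := H.choose_spec (x (2 * k + 1))
      have h2 := hx k
      simp only [dif_pos H] at h2
      rw [← h2] at h1
      have e : 2 * (k + 1) = 2 * k + 1 + 1 := by ring
      rw [e, word_succ, word_succ]
      exact h1
  have hsq : ∀ n q, 1 ≤ q → run q (word x n) < max q 2 := by
    intro n q hq
    have := (hI n).sq n q hq
    have e : 2 * n = n + n := by ring
    rw [e, word_drop] at this
    exact this
  obtain ⟨l, b, k, hb, hk, hkb, h⟩ := hrep
  have h1 := h 1 (by omega)
  by_cases hb1 : b = 1
  · subst hb1
    have h2 := h 2 (by omega) 0 (by omega)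
    have h1' := h1 0 (by omega)
    simp only [mul_one, add_zero] at h1' h2
    have h3 := hsq (l + 3) 1 le_rfl
    have h4 : 2 ≤ run 1 (word x (l + 3)) := by
      refine le_run le_rfl _ 2 (fun t ht => ⟨x l, ?_, ?_⟩)
      · rw [word_get x _ t (by omega)]
        have : t = 0 ∨ t = 1 := by omega
        rcases this with rfl | rfl
        · have : l + 3 - 1 - 0 = l + 2 := by omega
          rw [this, h2]
        · have : l + 3 - 1 - 1 = l + 1 := by omega
          rw [this, h1']
      · rw [word_get x _ (t + 1) (by omega)]
        have : t = 0 ∨ t = 1 := by omega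
        rcases this with rfl | rfl
        · have : l + 3 - 1 - (0 + 1) = l + 1 := by omega
          rw [this, h1']
        · have : l + 3 - 1 - (1 + 1) = l := by omega
          rw [this]
    omega
  · have h3 := hsq (l + 2 * b) b hb
    have h4 : b ≤ run b (word x (l + 2 * b)) := by
      refine le_run hb _ b (fun t ht => ⟨x (l + (b - 1 - t)), ?_, ?_⟩)
      · rw [word_get x _ t (by omega), ← h1 (b - 1 - t) (by omega)]
        have : l + 2 * b - 1 - t = l + 1 * b + (b - 1 - t) := by omega
        rw [this]
      · rw [word_get x _ (t + b) (by omega)]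
        have : l + 2 * b - 1 - (t + b) = l + (b - 1 - t) := by omega
        rw [this]
    omega

/-- Player 1 has a strategy over `c` letters if and only if `c ≥ 5`; so the least alphabet size
`c*` for which Player 1 has a strategy is five. -/
theorem result : (∀ c : ℕ, P1HasStrategy c ↔ 5 ≤ c) ∧
    IsLeast {c : ℕ | 1 ≤ c ∧ P1HasStrategy c} 5 := by
  have main : ∀ c : ℕ, P1HasStrategy c ↔ 5 ≤ c := by
    intro c
    constructor
    · intro h
      by_contra hc
      exact lower (by omega) h
    · intro hc
      rcases Nat.lt_or_ge c 6 with h | h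
      · have : c = 5 := by omega
        subst this
        exact five
      · exact upper h
  exact ⟨main, ⟨by norm_num, (main 5).2 le_rfl⟩, fun c hc => (main c).1 hc.2⟩

end Pool.Agent.Results.MP_f2e062_co.ExactlyFive
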